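import Mathlib
import Pool.Agent.Q29.DigDirM
import Pool.Agent.Q189.RK.Point

/-!
# The digits of the linear combinations of numbers with a simultaneous measure and of arbitrary numbers
-/

set_option autoImplicit false

namespace Pool.Agent.Q23.ZD

open Finset Pool.Agent.Q29.DD

theorem point_digits {s : ℕ} (θ : Fin s → ℝ) (κ : ℕ) (hκ : 1 ≤ κ) (c : ℝ) (hc : 0 < c)
    (hm : ∀ (p : Fin s → ℤ) (q : ℕ), 0 < q → ∃ j, c / (q : ℝ) ^ κ ≤ |θ j - (p j : ℝ) / q|) (r : ℕ) :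
    ∃ C : ℝ, 0 < C ∧ ∀ (t : Fin r → ℝ) (a : Fin (r + s) → Fin s → ℤ) (e : Fin (r + s) → Fin r → ℤ),
      LinearIndependent ℤ (fun k => (a k, e k)) → ∀ M : ℝ, 1 ≤ M → (∀ k j, |(a k j : ℝ)| ≤ M) →
      (∀ k j, |(e k j : ℝ)| ≤ M) → ∀ g : Fin (r + s) → ℕ, (∀ k, 2 ≤ g k) → ∀ (L : Fin (r + s) → ℕ) (Λ α : ℝ),
      (∀ k, Λ ≤ L k * Real.log (g k)) →
      (∀ k, F C (complexity (g k) (∑ j, (a k j : ℝ) * θ j + ∑ j, (e k j : ℝ) * t j) (L k)) *
          Real.log (g k) ≤ α) → Λ ≤ ((r + s) * κ + 2) * α + ((r + s) * κ + 1) * Real.log M := by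
  classical
  have e : (Fin (s + 1) ⊕ Fin r) ≃ Fin (r + s + 1) := by
    refine (finSumFinEquiv (m := s + 1) (n := r)).trans (finCongr ?_)
    omega
  let nums : (Fin r → ℝ) → Fin (s + 1) ⊕ Fin r → ℝ := fun t => Sum.elim (Fin.cons 1 θ) t
  obtain ⟨c', hc', h'⟩ := Pool.Agent.Q189.RK.rank_point e (Sum.inl 0)
    (Finset.univ.image fun j : Fin s => (Sum.inl j.succ : Fin (s + 1) ⊕ Fin r)) (nums 0) κ hκ c hc (by
      intro p q hq
      obtain ⟨j, hj⟩ := hm (fun j => p (Sum.inl j.succ)) q hq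
      refine ⟨Sum.inl j.succ, Finset.mem_image_of_mem _ (Finset.mem_univ j), ?_⟩
      simpa [nums] using hj)
  obtain ⟨C, hC, h⟩ := max_digits (m := s) (r := r) (n := r + s) θ (((r + s) * κ + 1 : ℕ) : ℝ) c' (by positivity) hc' (by
    intro t X hX v hv hvX
    have hX0 : 0 < X := by linarith
    obtain ⟨k, hk⟩ := h' (nums t) (by simp [nums]) (by
      intro i hi
      obtain ⟨j, -, rfl⟩ := Finset.mem_image.1 hi
      simp [nums]) X hX (fun k => Sum.elim (v k).1 (v k).2) (by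
      have h1 := hv.map' (LinearEquiv.sumArrowLequivProdArrow (Fin (s + 1)) (Fin r) ℤ ℤ).symm.toLinearMap
        (LinearEquiv.ker _)
      exact h1) (by
      intro k i
      have h1 := hvX k
      rw [Prod.norm_def, max_le_iff] at h1
      rcases i with i | i
      · have h2 := (norm_le_pi_norm (v k).1 i).trans h1.1
        rwa [Int.norm_eq_abs] at h2
      · have h2 := (norm_le_pi_norm (v k).2 i).trans h1.2
        rwa [Int.norm_eq_abs] at h2)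
    refine ⟨k, ?_⟩
    have e1 : ∑ i, ((Sum.elim (v k).1 (v k).2 i : ℤ) : ℝ) * nums t i = Pool.Agent.Q29.DD.val θ t (v k) := by
      unfold Pool.Agent.Q29.DD.val
      rw [Fintype.sum_sum_type, Fin.sum_univ_succ]
      simp only [nums, Sum.elim_inl, Sum.elim_inr, Fin.cons_zero, Fin.cons_succ, mul_one]
    rw [e1] at hk
    rwa [Real.rpow_neg hX0.le, Real.rpow_natCast, ← div_eq_mul_inv])
  refine ⟨C, hC, fun t a e hli M hM ha he g hg L Λ α hΛ hα => ?_⟩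
  refine (h t a e hli M hM ha he g hg L Λ α hΛ hα).trans (le_of_eq ?_)
  push_cast
  ring

/-- the form at one scale -/
theorem point_scale {s : ℕ} (hs : 1 ≤ s) (θ : Fin s → ℝ) (κ : ℕ) (hκ : 2 ≤ κ) (c : ℝ) (hc : 0 < c)
    (hm : ∀ (p : Fin s → ℤ) (q : ℕ), 0 < q → ∃ j, c / (q : ℝ) ^ κ ≤ |θ j - (p j : ℝ) / q|) (r : ℕ) (ε : ℝ)
    (hε : 0 < ε) :
    ∃ δ : ℝ, 0 < δ ∧ ∀ (Λ : ℝ), 1 ≤ Λ → ∀ (t : Fin r → ℝ) (a : Fin (r + s) → Fin s → ℤ)
      (e : Fin (r + s) → Fin r → ℤ), LinearIndependent ℤ (fun k => (a k, e k)) →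
      (∀ k j, |(a k j : ℝ)| ≤ Real.exp (δ * Λ)) → (∀ k j, |(e k j : ℝ)| ≤ Real.exp (δ * Λ)) →
      ∀ g : Fin (r + s) → ℕ, (∀ k, 2 ≤ g k) → (∀ k, (g k : ℝ) ≤ Real.exp (δ * Λ)) →
        ∃ k, (1 / ((r + s) * κ + 2) - ε) * (Λ / Real.log (g k)) ≤
          complexity (g k) (∑ j, (a k j : ℝ) * θ j + ∑ j, (e k j : ℝ) * t j) ⌊Λ / Real.log (g k)⌋₊ := by
  obtain ⟨C, hC, h⟩ := point_digits θ κ (by omega) c hc hm r
  have hr0 : (0 : ℝ) ≤ r := Nat.cast_nonneg _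
  have hs1 : (1 : ℝ) ≤ s := by exact_mod_cast hs
  have hκ2 : (2 : ℝ) ≤ κ := by exact_mod_cast hκ
  obtain ⟨δ, hδ, h'⟩ := scale (n := r + s) ((r + s) * κ + 2) C ((r + s) * κ + 1) ε
    (by nlinarith) hC (by positivity) hε
  refine ⟨δ, hδ, fun Λ hΛ t a e hli ha he g hg hgL => ?_⟩
  refine h' Λ hΛ (fun k => ∑ j, (a k j : ℝ) * θ j + ∑ j, (e k j : ℝ) * t j) g hg hgL ?_
  intro L α Λ' hΛ' hα
  have h1 := h t a e hli (Real.exp (δ * Λ)) (Real.one_le_exp (by positivity)) ha he g hg L Λ' α hΛ' hα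
  rwa [Real.log_exp] at h1

end Pool.Agent.Q23.ZD
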